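import Pool.Agent.Lib.OddN.PiecesOddFinal
import Pool.Agent.Lib.OddN.Main

set_option autoImplicit false

namespace Pool.Agent.Results.MP_c95763_co.PiecesOddnessEight

open Finset OddN

/-- the edges of `G` with exactly one end in `Z` -/
def cut {V E : Type*} [Fintype E] [DecidableEq V] (G : Multigraph V E) (Z : Finset V) :
    Finset E :=
  {e | ¬ (G.src e ∈ Z ↔ G.tgt e ∈ Z)}

/-- identifying vertices with the same value of `p` gives a cubic graph: each class of `p` is
left by exactly three edges -/
def CubicContraction {V E : Type*} [Fintype V] [Fintype E] [DecidableEq V]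
    (G : Multigraph V E) (p : V → V) : Prop :=
  ∀ v, (cut G {u | p u = p v}).card = 3

/-- in the contracted graph, whose vertices are the values of `p`, every cut with exactly three
edges has at most one vertex on one of its sides -/
def NoNontrivialThreeCut {V E : Type*} [Fintype V] [Fintype E] [DecidableEq V]
    (G : Multigraph V E) (p : V → V) : Prop :=
  ∀ Y : Finset V, (cut G {u | p u ∈ Y}).card = 3 →
    (univ.image p ∩ Y).card ≤ 1 ∨ (univ.image p \ Y).card ≤ 1

/-- there are nine pairwise disjoint sets `Y i` of values of `p` such that an odd number of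
vertices of `G` have their value in `Y i` and no edge of `C` leaves this set of vertices -/
def NineOddSets {V E : Type*} [Fintype V] [Fintype E] [DecidableEq V]
    (G : Multigraph V E) (C : Finset E) (p : V → V) : Prop :=
  ∃ Y : Fin 9 → Finset V, (∀ i j, i ≠ j → Disjoint (Y i) (Y j)) ∧
    ∀ i, Odd ({u | p u ∈ Y i} : Finset V).card ∧ ∀ e ∈ cut G {u | p u ∈ Y i}, e ∉ C

/-- Let `G` be a bridgeless cubic multigraph and `C1` a cycle of `G` such that no cubic
contraction of `G` without nontrivial 3-edge cuts has nine pairwise disjoint odd sets left by no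
edge of `C1`. Then for every edge `e` there are a 2-factor `C2` avoiding `e` and a cycle `C3`
with `C1 ∪ C2 ∪ C3 = E(G)`. -/
theorem result {V E : Type*} [Fintype V] [Fintype E] [DecidableEq V] [DecidableEq E]
    (G : Multigraph V E) (hcubic : G.Cubic) (hbridgeless : G.Bridgeless)
    (C1 : Finset E) (hC1 : G.IsCycle C1)
    (hpieces : ∀ p : V → V, CubicContraction G p → NoNontrivialThreeCut G p →
      ¬ NineOddSets G C1 p) (e : E) :
    ∃ C2 C3 : Finset E, G.IsTwoFactor C2 ∧ e ∉ C2 ∧ G.IsCycle C3 ∧ C1 ∪ C2 ∪ C3 = univ := by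
  rename_i dV dE
  obtain rfl : dV = fun a b => Classical.propDecidable (a = b) := Subsingleton.elim _ _
  obtain rfl : dE = fun a b => Classical.propDecidable (a = b) := Subsingleton.elim _ _
  classical
  have hcr : ∀ (Z : Finset V) (e : E), e ∈ cut G Z ↔ cr G.src G.tgt Z e := by
    intro Z e
    unfold cut cr
    simp
  have hcard : ∀ Z : Finset V, (cut G Z).card = cn G.src G.tgt univ Z := by
    intro Z
    rw [cn_eq_card]
    congr 1
    ext e
    simp [hcr]
  refine cover_few (m := 9) (fun s t vs es F h e he =>
    main vs.card s t vs es F rfl h e he) G hcubic hbridgeless C1 hC1 ?_ e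
  rintro p hp1 hp2 ⟨Y, hY, hd⟩
  refine hpieces p (fun v => ?_) (fun Z hZ => ?_)
    ⟨Y, hd, fun i => ⟨(hY i).1, fun g hg hgC => ?_⟩⟩
  · rw [hcard]
    exact hp1 v (mem_univ v)
  · rw [hcard] at hZ
    exact hp2 Z hZ
  · exact (mem_sdiff.1 ((hY i).2 g (mem_univ g) ((hcr _ g).1 hg))).2 hgC

end Pool.Agent.Results.MP_c95763_co.PiecesOddnessEight
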