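import Pool.Agent.Lib.JL.Top

set_option autoImplicit false

namespace Pool.Agent.Results.MP_c95763_co.ThreeLongCircuits

/-- Let `G` be a bridgeless cubic graph, `F` a 2-factor of `G` which contains an edge of every
3-edge cut of `G`, and `A` a set of edges of `G` such that one component `Q` of `F ∪ A` (the one of
`v₀`) contains all edges of `A`. Suppose that the number of circuits of `F` outside `Q` with more
than five vertices plus the number of edges of `A` is at most two (so for empty `A`: `F` has at most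
three circuits with more than five vertices, if `Q` is one of them). Then there are a 2-factor `F₂`
of `G` containing `A` and an even subgraph `C` with `F ∪ F₂ ∪ C = G`. -/
theorem result (V : Type) [Fintype V] (G F A : SimpleGraph V)
    (hcubic : ∀ v : V, (G.neighborSet v).ncard = 3)
    (hbridgeless : ∀ v w : V, G.Adj v w → (G.deleteEdges {s(v, w)}).Reachable v w)
    (hF : F ≤ G) (hF2 : ∀ v : V, (F.neighborSet v).ncard = 2)
    (hcut : ∀ X : Set V, {e : V × V | e.1 ∈ X ∧ e.2 ∉ X ∧ G.Adj e.1 e.2}.ncard = 3 →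
      ∃ v ∈ X, ∃ w, w ∉ X ∧ F.Adj v w)
    (hA : A ≤ G) (v₀ : V)
    (hQ : ∀ v w : V, A.Adj v w → (F ⊔ A).Reachable v₀ v)
    (hlong : {S : Set V | 5 < S.ncard ∧ ∃ v : V, ¬ (F ⊔ A).Reachable v₀ v ∧
      S = {w | F.Reachable v w}}.ncard + A.edgeSet.ncard ≤ 2) :
    ∃ F₂ C : SimpleGraph V,
      F₂ ≤ G ∧ C ≤ G ∧ A ≤ F₂ ∧
      (∀ v : V, (F₂.neighborSet v).ncard = 2) ∧
      (∀ v : V, Even ((C.neighborSet v).ncard)) ∧
      F ⊔ F₂ ⊔ C = G :=
  JP.finalL V G F A hcubic hbridgeless hF hF2 hcut hA v₀ hQ hlong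

end Pool.Agent.Results.MP_c95763_co.ThreeLongCircuits
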