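import Pool.Agent.Lib.EdP.Cost

set_option autoImplicit false

namespace Pool.Agent.Results.MP_c95763_co.ThreeTwoFactorsCuts

open Finset OddFour

/-- the edges of `G` with exactly one end in `Z` -/
def cut {V E : Type*} [Fintype E] [DecidableEq V] (G : Multigraph V E) (Z : Finset V) :
    Finset E :=
  {e | ¬ (G.src e ∈ Z ↔ G.tgt e ∈ Z)}

/-- every vertex set with an odd number of vertices which is left by no edge of `C` is left by
at least `k` edges of `G` -/
def ClosedCutsAtLeast {V E : Type*} [Fintype E] [DecidableEq V] (G : Multigraph V E)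
    (C : Finset E) (k : ℕ) : Prop :=
  ∀ Z : Finset V, Odd Z.card → (∀ e ∈ cut G Z, e ∉ C) → k ≤ (cut G Z).card

/-- the subgraph of `G` induced by `Z` is bipartite, with classes `Z ∩ A` and `Z \ A` -/
def InducesBipartite {V E : Type*} (G : Multigraph V E) (Z : Finset V) : Prop :=
  ∃ A : Finset V, ∀ e, G.src e ∈ Z → G.tgt e ∈ Z → (G.src e ∈ A ↔ G.tgt e ∉ A)

/-- every vertex set `Z` with an odd number of vertices such that neither `Z` nor its complement
induces a bipartite subgraph, and left by exactly two edges of `C`, is left by three or by at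
least `(k + 5) / 2` edges of `G` -/
def CyclicCutsAtLeast {V E : Type*} [Fintype V] [Fintype E] [DecidableEq V] [DecidableEq E]
    (G : Multigraph V E) (C : Finset E) (k : ℕ) : Prop :=
  ∀ Z : Finset V, Odd Z.card → ¬ InducesBipartite G Z → ¬ InducesBipartite G (univ \ Z) →
    (cut G Z ∩ C).card = 2 → (cut G Z).card = 3 ∨ k + 5 ≤ 2 * (cut G Z).card

/-- Let `G` be a bridgeless cubic multigraph, `C1` a 2-factor and `k ≥ 5` odd such that every odd
vertex set left by no edge of `C1` is left by at least `k` edges (for `k = 5`: such that `C1`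
meets every 3-edge cut), and every odd cut with two edges of `C1` and two sides which are not
bipartite has three or at least `(k + 5) / 2` edges (no condition for `k = 5`). Then for every
real cost `c` there are 2-factors `C2`, `C3` such that the edges in none of `C1`, `C2`, `C3` cost
at most `1 / (k (k + 2))` times the cost of the edges outside `C1`. -/
theorem result {V E : Type*} [Fintype V] [Fintype E] [DecidableEq V] [DecidableEq E]
    (G : Multigraph V E) (hcubic : G.Cubic) (hbridgeless : G.Bridgeless)
    (C1 : Finset E) (hC1 : G.IsTwoFactor C1) (k : ℕ) (hk : 5 ≤ k) (hko : Odd k)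
    (hcl : ClosedCutsAtLeast G C1 k) (hcy : CyclicCutsAtLeast G C1 k) (c : E → ℝ) :
    ∃ C2 C3 : Finset E, G.IsTwoFactor C2 ∧ G.IsTwoFactor C3 ∧
      k * (k + 2) * ∑ e ∈ univ \ (C1 ∪ C2 ∪ C3), c e ≤ ∑ e ∈ univ \ C1, c e := by
  rename_i dV dE
  obtain rfl : dV = fun a b => Classical.propDecidable (a = b) := Subsingleton.elim _ _
  obtain rfl : dE = fun a b => Classical.propDecidable (a = b) := Subsingleton.elim _ _
  classical
  have hst : ∀ e, G.src e ≠ G.tgt e := G.loopless
  have hcr : ∀ (Z : Finset V) (e : E), e ∈ cut G Z ↔ cr G.src G.tgt Z e := by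
    intro Z e
    unfold cut cr
    simp
  have card_cut : ∀ Z : Finset V, (cut G Z).card = cn G.src G.tgt univ Z := by
    intro Z
    rw [cn_eq_card]
    congr 1
    ext e
    simp [hcr]
  have hcub : ∀ v, cn G.src G.tgt univ {v} = 3 := fun v => by rw [← deg_eq]; exact hcubic v
  have hcut := oddcut_of_bridgeless G hcubic hbridgeless
  have hcompl : ∀ C : Finset E, (∀ v, cn G.src G.tgt C {v} = 1) → G.IsTwoFactor (univ \ C) := by
    intro C hC v
    have e1 := cn_union (s := G.src) (t := G.tgt) (sdiff_disjoint : Disjoint (univ \ C) C) {v}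
    rw [sdiff_union_of_subset (subset_univ C), ← deg_eq, ← deg_eq G (univ \ C), hcubic v,
      hC v] at e1
    omega
  have hadd : ∀ X : Finset V, cn G.src G.tgt univ X =
      cn G.src G.tgt (univ \ C1) X + cn G.src G.tgt C1 X := by
    intro X
    have e1 := cn_union (s := G.src) (t := G.tgt)
      (sdiff_disjoint : Disjoint (univ \ C1) C1) X
    rwa [sdiff_union_of_subset (subset_univ C1)] at e1
  have hJ : ∀ v, cn G.src G.tgt (univ \ C1) {v} = 1 := by
    intro v
    have e1 := hadd {v}
    rw [hcub v, ← deg_eq G C1, hC1 v] at e1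
    omega
  have hclosed : ∀ X : Finset V, Odd X.card → cn G.src G.tgt C1 X = 0 →
      k ≤ cn G.src G.tgt univ X := by
    intro X hX h
    rw [← card_cut]
    refine hcl X hX fun e he heC => ?_
    exact (cn_eq_zero.1 h) e heC ((hcr X e).1 he)
  obtain ⟨M, N, hM, hN, hMN⟩ := EdP.three_cost hst hcub hcut k hk hko hJ
    (fun X hX h3 => by
      obtain ⟨a, ha⟩ := EdP.pm_odd hst hJ hX
      have e1 := hadd X
      by_cases h : cn G.src G.tgt C1 X = 0
      · have := hclosed X hX h
        omega
      · omega)
    (fun X hX h => by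
      have e1 := hadd X
      have := hclosed X hX (by omega)
      omega)
    (fun X hX h1 h2 h3 => by
      have e1 := hadd X
      have h4 := hcy X hX h1 h2 (by
        have h5 : (cut G X ∩ C1).card = cn G.src G.tgt C1 X := by
          rw [cn_eq_card]
          congr 1
          ext e
          rw [mem_inter, hcr, mem_filter, and_comm]
        omega)
      rw [card_cut] at h4
      exact h4) c
  refine ⟨univ \ M, univ \ N, hcompl M hM, hcompl N hN, ?_⟩
  have : univ \ (C1 ∪ (univ \ M) ∪ (univ \ N)) = (univ \ C1) ∩ M ∩ N := by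
    ext e
    simp only [mem_sdiff, mem_univ, true_and, mem_union, mem_inter, not_or, not_not]
  rw [this]
  exact hMN

end Pool.Agent.Results.MP_c95763_co.ThreeTwoFactorsCuts
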