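import Pool.Agent.Lib.EdP.Weighted

set_option autoImplicit false

namespace Pool.Agent.Results.MP_c95763_co.WeightedCover

open Finset OddFour

/-- the edges of `G` with exactly one end in `Z` -/
def cut {V E : Type*} [Fintype E] [DecidableEq V] (G : Multigraph V E) (Z : Finset V) :
    Finset E :=
  {e | ¬ (G.src e ∈ Z ↔ G.tgt e ∈ Z)}

/-- every vertex set with an odd number of vertices which is left by no edge of `C` is left by
at least `k` edges of `G` -/
def ClosedCutsAtLeast {V E : Type*} [Fintype E] [DecidableEq V] (G : Multigraph V E)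
    (C : Finset E) (k : ℕ) : Prop :=
  ∀ Z : Finset V, Odd Z.card → (∀ e ∈ cut G Z, e ∉ C) → k ≤ (cut G Z).card

/-- Let `G` be a bridgeless cubic multigraph, `k ≥ 3` odd, and `C1` a 2-factor such that every
odd vertex set left by no edge of `C1` is left by at least `k` edges. Then for every real cost
`c` there are a 2-factor `C2` and a cycle `C3` such that the edges outside `C1 ∪ C2 ∪ C3` cost
at most `1 / (k (k + 2))` times the cost of the edges outside `C1`. -/
theorem result {V E : Type*} [Fintype V] [Fintype E] [DecidableEq V] [DecidableEq E]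
    (G : Multigraph V E) (hcubic : G.Cubic) (hbridgeless : G.Bridgeless)
    (k : ℕ) (hk : 3 ≤ k) (hodd : Odd k)
    (C1 : Finset E) (hC1 : G.IsTwoFactor C1) (hcuts : ClosedCutsAtLeast G C1 k) (c : E → ℝ) :
    ∃ C2 C3 : Finset E, G.IsTwoFactor C2 ∧ G.IsCycle C3 ∧
      k * (k + 2) * ∑ e ∈ univ \ (C1 ∪ C2 ∪ C3), c e ≤ ∑ e ∈ univ \ C1, c e := by
  rename_i dV dE
  obtain rfl : dV = fun a b => Classical.propDecidable (a = b) := Subsingleton.elim _ _
  obtain rfl : dE = fun a b => Classical.propDecidable (a = b) := Subsingleton.elim _ _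
  classical
  have hst : ∀ e, G.src e ≠ G.tgt e := G.loopless
  have hcr : ∀ (Z : Finset V) (e : E), e ∈ cut G Z ↔ cr G.src G.tgt Z e := by
    intro Z e
    unfold cut cr
    simp
  have card_cut : ∀ Z : Finset V, (cut G Z).card = cn G.src G.tgt univ Z := by
    intro Z
    rw [cn_eq_card]
    congr 1
    ext e
    simp [hcr]
  have hcub : ∀ v, cn G.src G.tgt univ {v} = 3 := fun v => by rw [← deg_eq]; exact hcubic v
  have hcut := oddcut_of_bridgeless G hcubic hbridgeless
  have hadd : ∀ (C : Finset E) (X : Finset V), cn G.src G.tgt univ X =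
      cn G.src G.tgt (univ \ C) X + cn G.src G.tgt C X := by
    intro C X
    have e1 := cn_union (s := G.src) (t := G.tgt) (sdiff_disjoint : Disjoint (univ \ C) C) X
    rwa [sdiff_union_of_subset (subset_univ C)] at e1
  have hJ : ∀ v, cn G.src G.tgt (univ \ C1) {v} = 1 := by
    intro v
    have e1 := hadd C1 {v}
    rw [hcub v, ← deg_eq G C1, hC1 v] at e1
    omega
  obtain ⟨M, N, hM, hN, hMN⟩ := EdP.weighted hst hcub hcut k hk hodd hJ
    (fun X hX h => by
      rw [← card_cut]
      refine hcuts X hX fun e he heC => ?_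
      exact (mem_sdiff.1 (h e ((hcr X e).1 he))).2 heC) c
  refine ⟨univ \ M, univ \ N, fun v => ?_, fun v => ?_, ?_⟩
  · have e1 := hadd M {v}
    rw [hcub v, hM v] at e1
    rw [deg_eq]
    omega
  · have e1 := hadd N {v}
    rw [hcub v] at e1
    rw [deg_eq]
    obtain ⟨a, ha⟩ := hN v
    rw [ha] at e1
    exact ⟨1 - a, by omega⟩
  · have h1 : univ \ (C1 ∪ (univ \ M) ∪ (univ \ N)) = (univ \ C1) ∩ M ∩ N := by
      ext e
      simp only [mem_sdiff, mem_univ, true_and, mem_union, mem_inter, not_or, not_not]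
    rw [h1]
    exact hMN

end Pool.Agent.Results.MP_c95763_co.WeightedCover
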